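import Pool.Agent.Helper60.Rosenthal.Main

/-!
# The facts on the dual space which are used in the proof of uniform smoothness
-/

open Filter Topology

universe u

namespace Pool.Agent.Helper83.BM2

open Helper60.Rosenthal Helper59.Rotation NormedSpace

variable {E : Type u} [NormedAddCommGroup E] [NormedSpace ℝ E]

/-- the duality map at a unit vector, and the properties of the dual space -/
theorem data [CompleteSpace E] [TopologicalSpace.SeparableSpace E]
    (htrans : ∀ x y : E, ‖x‖ = 1 → ‖y‖ = 1 → ∃ T : E ≃ₗᵢ[ℝ] E, T x = y)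
    (hl1 : ¬ ContainsL1 E) : UConvex E ∧ USmooth E ∧
      TopologicalSpace.SeparableSpace (StrongDual ℝ E) ∧
      ∀ f g : StrongDual ℝ E, ‖f‖ = 1 → ‖g‖ = 1 →
        ∃ T : StrongDual ℝ E ≃ₗᵢ[ℝ] StrongDual ℝ E, T f = g := by
  have hsm : ∀ x : E, ‖x‖ = 1 → SmoothAt x := fun x hx => smoothAt_of_transitive htrans hx
  have hsepD : TopologicalSpace.SeparableSpace (StrongDual ℝ E) :=
    dual_separable fun z hz => IsO.eq_zero hsm htrans hl1 hz
  have hUS : USmooth E := usmooth_of_separable_dual htrans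
  have hUCD : UConvex (StrongDual ℝ E) := uconvex_dual hUS
  have hsurj : Function.Surjective (inclusionInDoubleDualLi ℝ (E := E)) :=
    surjective_of_uconvex hUCD (inclusionInDoubleDualLi ℝ (E := E)) (by
      intro f c hc
      by_cases hc0 : c < 0
      · exact ⟨0, by simp, by simpa using hc0⟩
      · obtain ⟨x, hx, hfx⟩ := exists_unit_lt f (not_lt.mp hc0) hc
        exact ⟨x, hx.le, hfx⟩)
  -- every functional of norm one attains its norm
  have hatt : ∀ f : StrongDual ℝ E, ‖f‖ = 1 → ∃ x : E, ‖x‖ = 1 ∧ J x = f := by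
    intro f hf
    obtain ⟨z, hz, hzf⟩ := exists_dual_vector ℝ f (by rw [hf]; norm_num)
    obtain ⟨x, rfl⟩ := hsurj z
    have hx : ‖x‖ = 1 := by
      rw [← hz]
      exact ((inclusionInDoubleDualLi ℝ (E := E)).norm_map x).symm
    have hfx : f x = 1 := by
      have : inclusionInDoubleDualLi ℝ x f = f x := rfl
      rw [← this, hzf, hf]
      norm_num
    exact ⟨x, hx, (J_unique hx (hsm x hx) hf.le hfx).symm⟩
  have htransD : ∀ f g : StrongDual ℝ E, ‖f‖ = 1 → ‖g‖ = 1 →
      ∃ T : StrongDual ℝ E ≃ₗᵢ[ℝ] StrongDual ℝ E, T f = g := by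
    intro f g hf hg
    obtain ⟨x, hx, rfl⟩ := hatt f hf
    obtain ⟨y, hy, rfl⟩ := hatt g hg
    obtain ⟨T, hT⟩ := htrans x y hx hy
    refine ⟨dualIsoEquiv T, ?_⟩
    change dualIso T (J x) = J y
    rw [dualIso_J T hx (by rw [hT]; exact hsm y hy), hT]
  exact ⟨(uniform_of_transitive htrans hl1).1, hUS, hsepD, htransD⟩

end Pool.Agent.Helper83.BM2
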