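import Mathlib

/-!
# Quadratic smoothness in a dense set of directions

In a separable Banach space with transitive norm every point of the unit sphere is touched from
inside by an ellipsoid with dense span.
-/

open Filter Topology

namespace Pool.Agent.Helper83.BM2

/-- the Hilbert ball as a subset of the product -/
def HB : Set (ℕ → ℝ) := {h | ∀ n, ∑ j ∈ Finset.range n, h j ^ 2 ≤ 1}

theorem HB_abs {h : ℕ → ℝ} (hh : h ∈ HB) (j : ℕ) : |h j| ≤ 1 := by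
  have h1 := hh (j + 1)
  rw [Finset.sum_range_succ] at h1
  have h2 : 0 ≤ ∑ i ∈ Finset.range j, h i ^ 2 := Finset.sum_nonneg fun i _ => sq_nonneg _
  exact (sq_le_one_iff_abs_le_one _).1 (by linarith)

theorem HB_closed : IsClosed HB := by
  have : HB = ⋂ n, {h : ℕ → ℝ | ∑ j ∈ Finset.range n, h j ^ 2 ≤ 1} := by
    ext h; simp [HB]
  rw [this]
  refine isClosed_iInter fun n => isClosed_le ?_ continuous_const
  exact continuous_finset_sum _ fun j _ => (continuous_apply j).pow 2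

theorem HB_compact : IsCompact HB := by
  refine (isCompact_univ_pi (X := fun _ : ℕ => ℝ) (s := fun _ => Set.Icc (-1 : ℝ) 1)
    fun _ => isCompact_Icc).of_isClosed_subset HB_closed ?_
  intro h hh j _
  exact abs_le.1 (HB_abs hh j)

variable {E : Type*} [NormedAddCommGroup E] [NormedSpace ℝ E]

/-- the compact operator -/
noncomputable def Sop (v : ℕ → E) (h : ℕ → ℝ) : E := ∑' j, ((2 : ℝ)⁻¹ ^ j * h j) • v j

theorem norm_term_le {v : ℕ → E} (hv : ∀ j, ‖v j‖ ≤ 1) {h : ℕ → ℝ} {c : ℝ} (hh : ∀ j, |h j| ≤ c)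
    (j : ℕ) : ‖((2 : ℝ)⁻¹ ^ j * h j) • v j‖ ≤ (2 : ℝ)⁻¹ ^ j * c := by
  rw [norm_smul, norm_mul, norm_pow, Real.norm_eq_abs, Real.norm_eq_abs]
  have h1 : |(2 : ℝ)⁻¹| = (2 : ℝ)⁻¹ := abs_of_pos (by norm_num)
  rw [h1]
  have h2 : (0 : ℝ) ≤ (2 : ℝ)⁻¹ ^ j := by positivity
  calc (2 : ℝ)⁻¹ ^ j * |h j| * ‖v j‖ ≤ (2 : ℝ)⁻¹ ^ j * |h j| * 1 :=
        mul_le_mul_of_nonneg_left (hv j) (mul_nonneg h2 (abs_nonneg _))
    _ ≤ (2 : ℝ)⁻¹ ^ j * c := by
        rw [mul_one]; exact mul_le_mul_of_nonneg_left (hh j) h2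

theorem summable_geo (c : ℝ) : Summable fun j : ℕ => (2 : ℝ)⁻¹ ^ j * c :=
  (summable_geometric_of_lt_one (by norm_num) (by norm_num)).mul_right c

theorem summable_term [CompleteSpace E] {v : ℕ → E} (hv : ∀ j, ‖v j‖ ≤ 1) {h : ℕ → ℝ} {c : ℝ}
    (hh : ∀ j, |h j| ≤ c) : Summable fun j => ((2 : ℝ)⁻¹ ^ j * h j) • v j :=
  Summable.of_norm_bounded (summable_geo c) (norm_term_le hv hh)

theorem continuousOn_Sop [CompleteSpace E] {v : ℕ → E} (hv : ∀ j, ‖v j‖ ≤ 1) :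
    ContinuousOn (Sop v) HB := by
  unfold Sop
  refine continuousOn_tsum (u := fun j => (2 : ℝ)⁻¹ ^ j * 1) ?_ (summable_geo 1) ?_
  · intro j
    exact ((continuous_const.mul (continuous_apply j)).smul continuous_const).continuousOn
  · intro j h hh
    exact norm_term_le hv (HB_abs hh) j

theorem Sop_add [CompleteSpace E] {v : ℕ → E} (hv : ∀ j, ‖v j‖ ≤ 1) {h : ℕ → ℝ} (hh : h ∈ HB)
    (j : ℕ) (s : ℝ) : Sop v (h + s • Pi.single j 1) = Sop v h + (s * (2 : ℝ)⁻¹ ^ j) • v j := by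
  unfold Sop
  have h1 : Summable fun i => ((2 : ℝ)⁻¹ ^ i * h i) • v i := summable_term hv (HB_abs hh)
  have h2 : HasSum (fun i => ((2 : ℝ)⁻¹ ^ i * (s * (Pi.single j (1 : ℝ) : ℕ → ℝ) i)) • v i)
      ((s * (2 : ℝ)⁻¹ ^ j) • v j) := by
    have := hasSum_single (f := fun i => ((2 : ℝ)⁻¹ ^ i * (s * (Pi.single j (1 : ℝ) : ℕ → ℝ) i)) • v i)
      j (by
        intro i hi
        simp [Pi.single_apply, hi])
    simpa [mul_comm] using this
  have h3 := h1.hasSum.add h2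
  refine Eq.trans ?_ h3.tsum_eq
  congr 1
  funext i
  rw [← add_smul]
  congr 1
  simp only [Pi.add_apply, Pi.smul_apply, smul_eq_mul]
  ring

theorem Sop_smul {v : ℕ → E} (h : ℕ → ℝ) (s : ℝ) : Sop v (s • h) = s • Sop v h := by
  unfold Sop
  rw [← tsum_const_smul'']
  congr 1
  funext j
  rw [smul_smul]
  congr 1
  simp only [Pi.smul_apply, smul_eq_mul]
  ring

theorem Sop_zero {v : ℕ → E} : Sop v 0 = 0 := by
  unfold Sop; simp

/-- the bound of the operator by the square sum -/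
theorem norm_Sop_le' {v : ℕ → E} {M : ℝ} (hM : ∀ h ∈ HB, ‖Sop v h‖ ≤ M) {h : ℕ → ℝ} {q : ℝ}
    (hq : 0 < q) (hh : ∀ n, ∑ j ∈ Finset.range n, h j ^ 2 ≤ q ^ 2) : ‖Sop v h‖ ≤ M * q := by
  have h1 : (q⁻¹ • h) ∈ HB := by
    intro n
    have : ∑ j ∈ Finset.range n, (q⁻¹ • h) j ^ 2 = (q⁻¹) ^ 2 * ∑ j ∈ Finset.range n, h j ^ 2 := by
      rw [Finset.mul_sum]
      refine Finset.sum_congr rfl fun j _ => ?_
      simp only [Pi.smul_apply, smul_eq_mul]
      ring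
    rw [this]
    calc (q⁻¹) ^ 2 * ∑ j ∈ Finset.range n, h j ^ 2 ≤ (q⁻¹) ^ 2 * q ^ 2 :=
          mul_le_mul_of_nonneg_left (hh n) (sq_nonneg _)
      _ = 1 := by field_simp
  have h2 := hM _ h1
  rw [Sop_smul, norm_smul, Real.norm_eq_abs, abs_of_pos (inv_pos.2 hq)] at h2
  rwa [inv_mul_le_iff₀ hq, mul_comm] at h2

theorem norm_Sop_le {v : ℕ → E} {M : ℝ} (hM : ∀ h ∈ HB, ‖Sop v h‖ ≤ M) {h : ℕ → ℝ} {q : ℝ}
    (hq : 0 ≤ q) (hh : ∀ n, ∑ j ∈ Finset.range n, h j ^ 2 ≤ q ^ 2) : ‖Sop v h‖ ≤ M * q := by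
  rcases hq.lt_or_eq with hq | hq
  · exact norm_Sop_le' hM hq hh
  · subst hq
    have h0 : h = 0 := by
      funext j
      have h1 := hh (j + 1)
      rw [Finset.sum_range_succ] at h1
      have h2 : 0 ≤ ∑ i ∈ Finset.range j, h i ^ 2 := Finset.sum_nonneg fun i _ => sq_nonneg _
      have h3 : h j ^ 2 = 0 := le_antisymm (by nlinarith) (sq_nonneg _)
      simpa using h3
    rw [h0, Sop_zero]
    simp

theorem sum_add_single {h : ℕ → ℝ} (j n : ℕ) (s : ℝ) :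
    ∑ i ∈ Finset.range n, (h + s • (Pi.single j (1 : ℝ) : ℕ → ℝ)) i ^ 2
      ≤ ∑ i ∈ Finset.range n, h i ^ 2 + (if j < n then 2 * s * h j else 0) + s ^ 2 := by
  by_cases hj : j < n
  · rw [if_pos hj]
    have hjm : j ∈ Finset.range n := Finset.mem_range.2 hj
    rw [← Finset.add_sum_erase _ _ hjm, ← Finset.add_sum_erase _ (fun i => h i ^ 2) hjm]
    have : ∑ i ∈ (Finset.range n).erase j, (h + s • (Pi.single j (1 : ℝ) : ℕ → ℝ)) i ^ 2
        = ∑ i ∈ (Finset.range n).erase j, h i ^ 2 := by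
      refine Finset.sum_congr rfl fun i hi => ?_
      have hij : i ≠ j := Finset.ne_of_mem_erase hi
      simp [Pi.single_apply, hij]
    rw [this]
    simp only [Pi.add_apply, Pi.smul_apply, smul_eq_mul, Pi.single_eq_same]
    nlinarith
  · rw [if_neg hj]
    have : ∑ i ∈ Finset.range n, (h + s • (Pi.single j (1 : ℝ) : ℕ → ℝ)) i ^ 2
        = ∑ i ∈ Finset.range n, h i ^ 2 := by
      refine Finset.sum_congr rfl fun i hi => ?_
      have hij : i ≠ j := by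
        rintro rfl
        exact hj (Finset.mem_range.1 hi)
      simp [Pi.single_apply, hij]
    rw [this]
    nlinarith [sq_nonneg s]

theorem sum_add_single_le {h : ℕ → ℝ} (hh : h ∈ HB) (j n : ℕ) (s : ℝ) :
    ∑ i ∈ Finset.range n, (h + s • (Pi.single j (1 : ℝ) : ℕ → ℝ)) i ^ 2
      ≤ 1 + 2 * s * h j + s ^ 2 := by
  have h1 : ∑ i ∈ Finset.range n, (h + s • (Pi.single j (1 : ℝ) : ℕ → ℝ)) i ^ 2
      ≤ ∑ i ∈ Finset.range (n + (j + 1)), (h + s • (Pi.single j (1 : ℝ) : ℕ → ℝ)) i ^ 2 :=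
    Finset.sum_le_sum_of_subset_of_nonneg (Finset.range_mono (by omega)) fun i _ _ => sq_nonneg _
  have h2 := sum_add_single (h := h) j (n + (j + 1)) s
  rw [if_pos (by omega)] at h2
  have h3 := hh (n + (j + 1))
  linarith

/-- second differences at a maximum point -/
theorem second_diff [CompleteSpace E] {v : ℕ → E} (hv : ∀ j, ‖v j‖ ≤ 1) {M : ℝ} (hM0 : 0 ≤ M)
    (hM : ∀ h ∈ HB, ‖Sop v h‖ ≤ M) {h : ℕ → ℝ} (hh : h ∈ HB) (j : ℕ) (s : ℝ) :
    ‖Sop v h + (s * (2 : ℝ)⁻¹ ^ j) • v j‖ + ‖Sop v h - (s * (2 : ℝ)⁻¹ ^ j) • v j‖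
      ≤ M * (2 + s ^ 2) := by
  have key : ∀ s : ℝ, 0 ≤ 1 + 2 * s * h j + s ^ 2 := by
    intro s
    have h1 := abs_le.1 (HB_abs hh j)
    have h2 : h j ^ 2 ≤ 1 := by nlinarith [h1.1, h1.2]
    nlinarith [sq_nonneg (s + h j)]
  have bd : ∀ s : ℝ, ‖Sop v h + (s * (2 : ℝ)⁻¹ ^ j) • v j‖
      ≤ M * Real.sqrt (1 + 2 * s * h j + s ^ 2) := by
    intro s
    rw [← Sop_add hv hh]
    refine norm_Sop_le hM (Real.sqrt_nonneg _) fun n => ?_
    rw [Real.sq_sqrt (key s)]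
    exact sum_add_single_le hh j n s
  have b1 := bd s
  have b2 := bd (-s)
  have e2 : Sop v h + (-s * (2 : ℝ)⁻¹ ^ j) • v j = Sop v h - (s * (2 : ℝ)⁻¹ ^ j) • v j := by
    rw [neg_mul, neg_smul, sub_eq_add_neg]
  rw [e2] at b2
  have p1 := Real.sqrt_nonneg (1 + 2 * s * h j + s ^ 2)
  have p2 := Real.sqrt_nonneg (1 + 2 * (-s) * h j + (-s) ^ 2)
  have q1 := Real.sq_sqrt (key s)
  have q2 := Real.sq_sqrt (key (-s))
  have hsum : Real.sqrt (1 + 2 * s * h j + s ^ 2) + Real.sqrt (1 + 2 * (-s) * h j + (-s) ^ 2)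
      ≤ 2 + s ^ 2 := by
    apply le_of_sq_le_sq _ (by positivity)
    nlinarith [sq_nonneg (Real.sqrt (1 + 2 * s * h j + s ^ 2)
      - Real.sqrt (1 + 2 * (-s) * h j + (-s) ^ 2)), sq_nonneg (s ^ 2)]
  calc _ ≤ M * Real.sqrt (1 + 2 * s * h j + s ^ 2)
        + M * Real.sqrt (1 + 2 * (-s) * h j + (-s) ^ 2) := add_le_add b1 b2
    _ = M * (Real.sqrt (1 + 2 * s * h j + s ^ 2)
        + Real.sqrt (1 + 2 * (-s) * h j + (-s) ^ 2)) := by ring
    _ ≤ M * (2 + s ^ 2) := mul_le_mul_of_nonneg_left hsum hM0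

/-- some unit vector is touched by the ellipsoid -/
theorem exists_touch [CompleteSpace E] {v : ℕ → E} (hv : ∀ j, ‖v j‖ ≤ 1) {i : ℕ} (hi : v i ≠ 0) :
    ∃ x : E, ‖x‖ = 1 ∧ ∃ M : ℝ, 0 < M ∧ ∀ j, ∀ t : ℝ,
      ‖x + t • v j‖ + ‖x - t • v j‖ ≤ 2 + (M * 2 ^ j) ^ 2 * t ^ 2 := by
  have hne : (HB).Nonempty := ⟨0, by intro n; simp⟩
  obtain ⟨h, hh, hmax⟩ := HB_compact.exists_isMaxOn hne (continuousOn_Sop hv).norm
  have hM : ∀ k ∈ HB, ‖Sop v k‖ ≤ ‖Sop v h‖ := fun k hk => hmax hk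
  have hMpos : 0 < ‖Sop v h‖ := by
    have h0 : (0 : ℕ → ℝ) ∈ HB := by intro n; simp
    have h1 : (0 : ℕ → ℝ) + (1 : ℝ) • Pi.single i 1 ∈ HB := by
      intro n
      have := sum_add_single (h := (0 : ℕ → ℝ)) i n 1
      simp only [Pi.zero_apply] at this
      refine this.trans ?_
      simp
    have h2 := hM _ h1
    rw [Sop_add hv h0, Sop_zero, zero_add, one_mul] at h2
    refine lt_of_lt_of_le (norm_pos_iff.2 ?_) h2
    exact smul_ne_zero (by positivity) hi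
  refine ⟨‖Sop v h‖⁻¹ • Sop v h, ?_, ‖Sop v h‖, hMpos, fun j t => ?_⟩
  · rw [norm_smul, norm_inv, norm_norm, inv_mul_cancel₀ hMpos.ne']
  · have h1 := second_diff hv hMpos.le hM hh j (t * ‖Sop v h‖ * 2 ^ j)
    have e1 : t * ‖Sop v h‖ * 2 ^ j * (2 : ℝ)⁻¹ ^ j = t * ‖Sop v h‖ := by
      rw [mul_assoc, ← mul_pow]; norm_num
    rw [e1] at h1
    have e2 : ‖Sop v h‖⁻¹ • Sop v h + t • v j
        = ‖Sop v h‖⁻¹ • (Sop v h + (t * ‖Sop v h‖) • v j) := by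
      rw [smul_add, smul_smul]; congr 2; field_simp
    have e3 : ‖Sop v h‖⁻¹ • Sop v h - t • v j
        = ‖Sop v h‖⁻¹ • (Sop v h - (t * ‖Sop v h‖) • v j) := by
      rw [smul_sub, smul_smul]; congr 2; field_simp
    rw [e2, e3, norm_smul, norm_smul, ← mul_add, norm_inv, norm_norm, inv_mul_le_iff₀ hMpos]
    refine h1.trans (le_of_eq ?_)
    ring

/-- the directions of quadratic smoothness -/
def Q2 (x : E) : Set E := {v | ∃ C : ℝ, ∀ t : ℝ, ‖x + t • v‖ + ‖x - t • v‖ ≤ 2 + C * t ^ 2}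

theorem Q2_smul {x v : E} (hv : v ∈ Q2 x) (c : ℝ) : c • v ∈ Q2 x := by
  obtain ⟨C, hC⟩ := hv
  refine ⟨C * c ^ 2, fun t => ?_⟩
  have := hC (t * c)
  rw [smul_smul]
  refine this.trans (le_of_eq ?_)
  ring

theorem Q2_map {x v : E} (T : E ≃ₗᵢ[ℝ] E) (hv : v ∈ Q2 x) : T v ∈ Q2 (T x) := by
  obtain ⟨C, hC⟩ := hv
  refine ⟨C, fun t => ?_⟩
  rw [← map_smul, ← map_add, ← map_sub, T.norm_map, T.norm_map]
  exact hC t

/-- **Theorem.** In a separable Banach space with transitive norm the norm is quadratically smooth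
at each point of the sphere in a dense set of directions. -/
theorem dense_upper [CompleteSpace E] [TopologicalSpace.SeparableSpace E]
    (htrans : ∀ x y : E, ‖x‖ = 1 → ‖y‖ = 1 → ∃ T : E ≃ₗᵢ[ℝ] E, T x = y) {x : E} (hx : ‖x‖ = 1) :
    Dense {v : E | ∃ C : ℝ, ∀ t : ℝ, ‖x + t • v‖ + ‖x - t • v‖ ≤ 2 + C * t ^ 2} := by
  change Dense (Q2 x)
  haveI : Nonempty E := ⟨0⟩
  set u := TopologicalSpace.denseSeq E with hu
  have hd : DenseRange u := TopologicalSpace.denseRange_denseSeq E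
  set v : ℕ → E := fun j => (1 + ‖u j‖)⁻¹ • u j with hv
  have hpos : ∀ j, 0 < 1 + ‖u j‖ := fun j => by positivity
  have hvn : ∀ j, ‖v j‖ ≤ 1 := by
    intro j
    rw [hv]
    simp only
    rw [norm_smul, norm_inv, Real.norm_eq_abs, abs_of_pos (hpos j), inv_mul_le_iff₀ (hpos j)]
    linarith
  have huv : ∀ j, u j = (1 + ‖u j‖) • v j := by
    intro j
    rw [hv]
    simp only
    rw [smul_smul, mul_inv_cancel₀ (hpos j).ne', one_smul]
  obtain ⟨i, hi⟩ : ∃ i, v i ≠ 0 := by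
    by_contra hcon
    push_neg at hcon
    have hu0 : ∀ j, u j = 0 := fun j => by rw [huv, hcon, smul_zero]
    have hx0 : x ∈ closure (Set.range u) := hd x
    have hr : Set.range u = {0} := by
      ext y
      constructor
      · rintro ⟨j, rfl⟩; exact hu0 j
      · rintro rfl; exact ⟨0, hu0 0⟩
    rw [hr, closure_singleton] at hx0
    rw [Set.mem_singleton_iff.1 hx0, norm_zero] at hx
    norm_num at hx
  obtain ⟨x₀, hx₀, M, hM, hT⟩ := exists_touch hvn hi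
  obtain ⟨T, hTx⟩ := htrans x₀ x hx₀ hx
  have hmem : ∀ j, u j ∈ Q2 x₀ := by
    intro j
    rw [huv]
    exact Q2_smul ⟨_, hT j⟩ _
  have hd2 : DenseRange (fun j => T (u j)) := T.surjective.denseRange.comp hd T.continuous
  refine hd2.mono ?_
  rintro y ⟨j, rfl⟩
  rw [← hTx]
  exact Q2_map T (hmem j)

end Pool.Agent.Helper83.BM2
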