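import Pool.Agent.Helper48.BM2.Lower
import Pool.Agent.Helper83.BM2.Upper
import Pool.Agent.Helper83.BM2.Data

/-!
# Separable spaces with transitive norm not containing `ℓ¹`: second order behaviour of the norm
-/

universe u

namespace Pool.Agent.Helper83.BM2

open Helper60.Rosenthal

/-- **Theorem.** -/
theorem final (E : Type u) [NormedAddCommGroup E] [NormedSpace ℝ E] [CompleteSpace E]
    [TopologicalSpace.SeparableSpace E]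
    (htrans : ∀ x y : E, ‖x‖ = 1 → ‖y‖ = 1 → ∃ T : E ≃ₗᵢ[ℝ] E, T x = y)
    (hl1 : ¬ ∃ (J : lp (fun _ : ℕ => ℝ) 1 →L[ℝ] E) (c : ℝ), 0 < c ∧ ∀ a, c * ‖a‖ ≤ ‖J a‖) :
    (∀ ε : ℝ, 0 < ε → ∃ δ : ℝ, 0 < δ ∧ ∀ x y : E, ‖x‖ = 1 → ‖y‖ = 1 → ε ≤ ‖x - y‖ →
      ‖x + y‖ ≤ 2 - δ) ∧
    (∀ ε : ℝ, 0 < ε → ∃ δ : ℝ, 0 < δ ∧ ∀ x h : E, ‖x‖ = 1 → ‖h‖ ≤ δ →
      ‖x + h‖ + ‖x - h‖ ≤ 2 + ε * ‖h‖) ∧
    ∀ x : E, ‖x‖ = 1 →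
      Dense {v : E | ∃ C : ℝ, ∀ t : ℝ, ‖x + t • v‖ + ‖x - t • v‖ ≤ 2 + C * t ^ 2} ∧
      ∀ v : E, (∀ a : ℝ, v ≠ a • x) → ∃ c : ℝ, 0 < c ∧
        ∀ t : ℝ, |t| ≤ 1 → 2 + c * t ^ 2 ≤ ‖x + t • v‖ + ‖x - t • v‖ := by
  obtain ⟨hUC, hUS, hsepD, htransD⟩ := data htrans fun h => hl1 h.embedding
  refine ⟨hUC, hUS, fun x hx => ⟨dense_upper htrans hx, fun v hv => ?_⟩⟩
  obtain ⟨f, hf, hfx⟩ := exists_dual_vector ℝ x (by rw [hx]; norm_num)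
  have hfx1 : f x = 1 := by rw [hfx, hx]; norm_num
  refine Pool.Agent.Helper48.BM2.lower_of_dense hx hf hfx1 (dense_upper htransD hf) ?_
  intro hmem
  obtain ⟨a, ha⟩ := Submodule.mem_span_singleton.1 hmem
  exact hv a ha.symm

end Pool.Agent.Helper83.BM2
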