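import Pool.Agent.Helper83.BM2.Upper

/-!
# An ellipsoid with dense span inside the unit ball which touches the unit sphere
-/

open Filter Topology ENNReal

namespace Pool.Agent.Helper83.BM2

variable {E : Type*} [NormedAddCommGroup E] [NormedSpace ℝ E]

/-- the Hilbert space of square summable real sequences -/
abbrev L2 : Type := lp (fun _ : ℕ => ℝ) 2

theorem L2_abs_le (b : L2) (j : ℕ) : |b j| ≤ ‖b‖ := by
  have := lp.norm_apply_le_norm (p := 2) (by norm_num) b j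
  simpa [Real.norm_eq_abs] using this

theorem L2_sum_le (b : L2) (n : ℕ) : ∑ j ∈ Finset.range n, b j ^ 2 ≤ ‖b‖ ^ 2 := by
  have h1 := lp.sum_rpow_le_norm_rpow (p := 2) (by norm_num) b (Finset.range n)
  have e : ∀ j, ‖b j‖ ^ (2 : ℝ≥0∞).toReal = b j ^ 2 := by
    intro j
    rw [ENNReal.toReal_ofNat, Real.rpow_ofNat, Real.norm_eq_abs, sq_abs]
  rw [ENNReal.toReal_ofNat, Real.rpow_ofNat] at h1
  simpa [sq_abs] using h1

theorem memLp_of_HB {h : ℕ → ℝ} (hh : h ∈ HB) : Memℓp h 2 := by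
  refine memℓp_gen' (C := 1) fun s => ?_
  obtain ⟨n, hn⟩ : ∃ n, s ⊆ Finset.range n := s.exists_nat_subset_range
  have h1 : ∑ i ∈ s, ‖h i‖ ^ (2 : ℝ≥0∞).toReal = ∑ i ∈ s, h i ^ 2 := by
    refine Finset.sum_congr rfl fun j _ => ?_
    rw [ENNReal.toReal_ofNat, Real.rpow_ofNat, Real.norm_eq_abs, sq_abs]
  rw [h1]
  exact (Finset.sum_le_sum_of_subset_of_nonneg hn fun i _ _ => sq_nonneg _).trans (hh n)

theorem norm_le_of_HB {h : ℕ → ℝ} (hh : h ∈ HB) : ‖(⟨h, memLp_of_HB hh⟩ : L2)‖ ≤ 1 := by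
  refine lp.norm_le_of_forall_sum_le (by norm_num) zero_le_one fun s => ?_
  obtain ⟨n, hn⟩ : ∃ n, s ⊆ Finset.range n := s.exists_nat_subset_range
  have h1 : ∑ i ∈ s, ‖(⟨h, memLp_of_HB hh⟩ : L2) i‖ ^ (2 : ℝ≥0∞).toReal = ∑ i ∈ s, h i ^ 2 := by
    refine Finset.sum_congr rfl fun j _ => ?_
    rw [ENNReal.toReal_ofNat, Real.rpow_ofNat, Real.norm_eq_abs, sq_abs]
  rw [h1, Real.one_rpow]
  exact (Finset.sum_le_sum_of_subset_of_nonneg hn fun i _ _ => sq_nonneg _).trans (hh n)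

/-- the compact operator on `ℓ²` -/
noncomputable def Lop [CompleteSpace E] (v : ℕ → E) (hv : ∀ j, ‖v j‖ ≤ 1) : L2 →L[ℝ] E :=
  LinearMap.mkContinuous
    { toFun := fun b => Sop v b
      map_add' := fun b c => by
        have h1 := summable_term hv (h := b) (c := ‖b‖) (L2_abs_le b)
        have h2 := summable_term hv (h := c) (c := ‖c‖) (L2_abs_le c)
        unfold Sop
        rw [← h1.tsum_add h2]
        congr 1
        funext j
        rw [← add_smul]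
        congr 1
        rw [lp.coeFn_add, Pi.add_apply]
        ring
      map_smul' := fun r b => by
        rw [lp.coeFn_smul]
        exact Sop_smul (b : ℕ → ℝ) r }
    2 (fun b => by
      have h1 : ‖Sop v b‖ ≤ ∑' j : ℕ, (2 : ℝ)⁻¹ ^ j * ‖b‖ :=
        tsum_of_norm_bounded (summable_geo ‖b‖).hasSum (norm_term_le hv (L2_abs_le b))
      rw [tsum_mul_right, tsum_geometric_of_lt_one (by norm_num) (by norm_num)] at h1
      change ‖Sop v b‖ ≤ 2 * ‖b‖
      norm_num at h1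
      exact h1)

theorem Lop_apply [CompleteSpace E] {v : ℕ → E} (hv : ∀ j, ‖v j‖ ≤ 1) (b : L2) :
    Lop v hv b = Sop v b := rfl

/-- **Theorem.** In each separable Banach space there is an ellipsoid with dense span which is
contained in the unit ball and touches the unit sphere. -/
theorem exists_touch' (F : Type*) [NormedAddCommGroup F] [NormedSpace ℝ F] [CompleteSpace F]
    [TopologicalSpace.SeparableSpace F] [Nontrivial F] :
    ∃ (S : lp (fun _ : ℕ => ℝ) 2 →L[ℝ] F) (a : lp (fun _ : ℕ => ℝ) 2), DenseRange S ∧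
      (∀ b, ‖S b‖ ≤ ‖b‖) ∧ ‖a‖ = 1 ∧ ‖S a‖ = 1 := by
  set u := TopologicalSpace.denseSeq F with hu
  have hd : DenseRange u := TopologicalSpace.denseRange_denseSeq F
  set v : ℕ → F := fun j => (1 + ‖u j‖)⁻¹ • u j with hv
  have hpos : ∀ j, 0 < 1 + ‖u j‖ := fun j => by positivity
  have hvn : ∀ j, ‖v j‖ ≤ 1 := by
    intro j
    rw [hv]
    simp only
    rw [norm_smul, norm_inv, Real.norm_eq_abs, abs_of_pos (hpos j), inv_mul_le_iff₀ (hpos j)]
    linarith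
  have huv : ∀ j, u j = (1 + ‖u j‖) • v j := by
    intro j
    rw [hv]
    simp only
    rw [smul_smul, mul_inv_cancel₀ (hpos j).ne', one_smul]
  obtain ⟨i, hi⟩ : ∃ i, v i ≠ 0 := by
    by_contra hcon
    push Not at hcon
    have hu0 : ∀ j, u j = 0 := fun j => by rw [huv, hcon, smul_zero]
    have hr : Set.range u = {0} := by
      ext y
      constructor
      · rintro ⟨j, rfl⟩; exact hu0 j
      · rintro rfl; exact ⟨0, hu0 0⟩
    obtain ⟨x, hx⟩ := exists_ne (0 : F)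
    have hx0 : x ∈ closure (Set.range u) := hd x
    rw [hr, closure_singleton] at hx0
    exact hx (Set.mem_singleton_iff.1 hx0)
  have h0 : (0 : ℕ → ℝ) ∈ HB := by intro n; simp
  obtain ⟨h, hh, hmax⟩ := HB_compact.exists_isMaxOn ⟨0, h0⟩ (continuousOn_Sop hvn).norm
  have hM : ∀ k ∈ HB, ‖Sop v k‖ ≤ ‖Sop v h‖ := fun k hk => hmax hk
  have hsingle : ∀ j, (0 : ℕ → ℝ) + (1 : ℝ) • Pi.single j 1 ∈ HB := by
    intro j n
    have := sum_add_single (h := (0 : ℕ → ℝ)) j n 1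
    simp only [Pi.zero_apply] at this
    refine this.trans ?_
    simp
  have hSs : ∀ j, Sop v ((0 : ℕ → ℝ) + (1 : ℝ) • Pi.single j 1) = ((2 : ℝ)⁻¹ ^ j) • v j := by
    intro j
    rw [Sop_add hvn h0, Sop_zero, zero_add, one_mul]
  have hMpos : 0 < ‖Sop v h‖ := by
    have h2 := hM _ (hsingle i)
    rw [hSs] at h2
    refine lt_of_lt_of_le (norm_pos_iff.2 ?_) h2
    exact smul_ne_zero (by positivity) hi
  set M := ‖Sop v h‖ with hMdef
  have hle : ∀ b : L2, ‖(M⁻¹ • Lop v hvn) b‖ ≤ ‖b‖ := by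
    intro b
    rw [ContinuousLinearMap.smul_apply, norm_smul, norm_inv, Real.norm_eq_abs, abs_of_pos hMpos,
      inv_mul_le_iff₀ hMpos, Lop_apply]
    exact norm_Sop_le hM (norm_nonneg b) (L2_sum_le b)
  have hSa : ‖(M⁻¹ • Lop v hvn) (⟨h, memLp_of_HB hh⟩ : L2)‖ = 1 := by
    rw [ContinuousLinearMap.smul_apply, norm_smul, norm_inv, Real.norm_eq_abs, abs_of_pos hMpos,
      Lop_apply]
    exact inv_mul_cancel₀ hMpos.ne'
  refine ⟨M⁻¹ • Lop v hvn, ⟨h, memLp_of_HB hh⟩, ?_, hle, ?_, hSa⟩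
  · refine hd.mono ?_
    rintro y ⟨j, rfl⟩
    refine ⟨((1 + ‖u j‖) * M * 2 ^ j) • (⟨_, memLp_of_HB (hsingle j)⟩ : L2), ?_⟩
    rw [map_smul, ContinuousLinearMap.smul_apply, Lop_apply]
    change ((1 + ‖u j‖) * M * 2 ^ j) • M⁻¹ • Sop v ((0 : ℕ → ℝ) + (1 : ℝ) • Pi.single j 1) = u j
    rw [hSs, smul_smul, smul_smul]
    conv_rhs => rw [huv j]
    congr 1
    have h2 : (2 : ℝ) ^ j * (2 : ℝ)⁻¹ ^ j = 1 := by rw [← mul_pow]; norm_num
    calc (1 + ‖u j‖) * M * 2 ^ j * M⁻¹ * (2 : ℝ)⁻¹ ^ j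
        = (1 + ‖u j‖) * (M * M⁻¹) * (2 ^ j * (2 : ℝ)⁻¹ ^ j) := by ring
      _ = 1 + ‖u j‖ := by rw [h2, mul_inv_cancel₀ hMpos.ne']; ring
  · refine le_antisymm (norm_le_of_HB hh) ?_
    calc (1 : ℝ) = ‖(M⁻¹ • Lop v hvn) (⟨h, memLp_of_HB hh⟩ : L2)‖ := hSa.symm
      _ ≤ _ := hle _

end Pool.Agent.Helper83.BM2
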